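import Mathlib

/-!
# Transfer of semisimplicity and of semi-invariants

`W` is embedded in the product of the spaces `U i`, equivariantly up to characters. If the spaces
`U i` are semisimple for the subgroup `J` of `G`, and the `J`-semi-invariant maps and forms between
them are `G`-semi-invariant, then the same holds for `W`.
-/

set_option autoImplicit false

namespace Pool.Agent.Helper70.MTG

open Module

section Pi

variable {L ι : Type} [Field L] {U : ι → Type} [∀ i, AddCommGroup (U i)] [∀ i, Module L (U i)]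

/-- the families which vanish outside `F` -/
def supp (L : Type) [Field L] {ι : Type} (U : ι → Type) [∀ i, AddCommGroup (U i)]
    [∀ i, Module L (U i)] (F : Finset ι) : Submodule L (∀ i, U i) where
  carrier := {x | ∀ i, i ∉ F → x i = 0}
  add_mem' := by
    intro x y hx hy i hi
    rw [Pi.add_apply, hx i hi, hy i hi, add_zero]
  zero_mem' := fun i _ => rfl
  smul_mem' := by
    intro c x hx i hi
    rw [Pi.smul_apply, hx i hi, smul_zero]

theorem pi_compl_aux {A : Type} [DecidableEq ι] (σ : ∀ i, A → End L (U i))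
    (ss : ∀ i (S : Submodule L (U i)), (∀ a, ∀ s ∈ S, σ i a s ∈ S) →
      ∃ S' : Submodule L (U i), (∀ a, ∀ s ∈ S', σ i a s ∈ S') ∧ IsCompl S S') (F : Finset ι) :
    ∀ S : Submodule L (∀ i, U i), (∀ a, ∀ s ∈ S, (fun i => σ i a (s i)) ∈ S) → S ≤ supp L U F →
      ∃ S' : Submodule L (∀ i, U i), (∀ a, ∀ s ∈ S', (fun i => σ i a (s i)) ∈ S') ∧
        S' ≤ supp L U F ∧ Disjoint S S' ∧ supp L U F ≤ S ⊔ S' := by
  induction F using Finset.induction_on with
  | empty =>
    intro S _ hS
    refine ⟨⊥, fun a s hs => ?_, bot_le, disjoint_bot_right, fun x hx => ?_⟩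
    · rw [Submodule.mem_bot] at hs ⊢
      subst hs
      ext i
      simp
    · have : x = 0 := funext fun i => hx i (by simp)
      rw [this]; exact Submodule.zero_mem _
  | insert k F hk ih =>
    intro S hst hS
    have hsupp : ∀ a, ∀ x ∈ supp L U F, (fun i => σ i a (x i)) ∈ supp L U F := by
      intro a x hx i hi
      show σ i a (x i) = 0
      rw [hx i hi, map_zero]
    obtain ⟨S₂, h1, h2, h3, h4⟩ := ih (S ⊓ supp L U F)
      (fun a s hs => ⟨hst a s hs.1, hsupp a s hs.2⟩) inf_le_right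
    obtain ⟨S₁, h5, h6⟩ := ss k (S.map (LinearMap.proj k)) (by
      rintro a _ ⟨s, hs, rfl⟩
      exact ⟨_, hst a s hs, rfl⟩)
    refine ⟨S₁.map (LinearMap.single L U k) ⊔ S₂, ?_, ?_, ?_, ?_⟩
    · intro a s hs
      obtain ⟨_, ⟨y, hy, rfl⟩, z, hz, rfl⟩ := Submodule.mem_sup.1 hs
      refine Submodule.mem_sup.2 ⟨_, ⟨σ k a y, h5 a y hy, rfl⟩, _, h1 a z hz, ?_⟩
      ext i
      simp only [LinearMap.coe_single, Pi.add_apply]
      by_cases hi : i = k
      · subst hi
        simp
      · simp [Pi.single_eq_of_ne hi]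
    · refine sup_le ?_ (h2.trans fun x hx i hi => hx i fun h => hi (Finset.mem_insert_of_mem h))
      rintro _ ⟨y, -, rfl⟩ i hi
      have : i ≠ k := fun h => hi (h ▸ Finset.mem_insert_self _ _)
      simp [Pi.single_eq_of_ne this]
    · rw [Submodule.disjoint_def]
      intro x hx hx'
      obtain ⟨_, ⟨y, hy, rfl⟩, z, hz, rfl⟩ := Submodule.mem_sup.1 hx'
      have hzk : z k = 0 := h2 hz k hk
      have hy0 : y = 0 := by
        have h7 : y ∈ S.map (LinearMap.proj k) := ⟨_, hx, by simp [hzk]⟩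
        exact (Submodule.disjoint_def.1 h6.disjoint) y h7 hy
      subst hy0
      rw [map_zero, zero_add] at hx ⊢
      exact (Submodule.disjoint_def.1 h3) z ⟨hx, h2 hz⟩ hz
    · intro x hx
      have h7 : x k ∈ S.map (LinearMap.proj k) ⊔ S₁ := by rw [h6.sup_eq_top]; trivial
      obtain ⟨_, ⟨s, hs, rfl⟩, y, hy, h8⟩ := Submodule.mem_sup.1 h7
      have h9 : x - s - LinearMap.single L U k y ∈ supp L U F := by
        intro i hi
        by_cases hik : i = k
        · subst hik
          have : x i = s i + y := h8.symm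
          simp [this]
        · have hi' : i ∉ insert k F := by
            rw [Finset.mem_insert]; rintro (h | h)
            · exact hik h
            · exact hi h
          have e1 : x i = 0 := hx i hi'
          have e2 : s i = 0 := hS hs i hi'
          simp [e1, e2, Pi.single_eq_of_ne hik]
      obtain ⟨u, hu, v, hv, h10⟩ := Submodule.mem_sup.1 (h4 h9)
      refine Submodule.mem_sup.2 ⟨s + u, S.add_mem hs hu.1, LinearMap.single L U k y + v,
        Submodule.add_mem_sup ⟨y, hy, rfl⟩ hv, ?_⟩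
      have : x = s + LinearMap.single L U k y + (u + v) := by rw [h10]; abel
      rw [this]; abel

/-- a finite product of semisimple representations is semisimple -/
theorem pi_compl [Finite ι] {A : Type} (σ : ∀ i, A → End L (U i))
    (ss : ∀ i (S : Submodule L (U i)), (∀ a, ∀ s ∈ S, σ i a s ∈ S) →
      ∃ S' : Submodule L (U i), (∀ a, ∀ s ∈ S', σ i a s ∈ S') ∧ IsCompl S S')
    (S : Submodule L (∀ i, U i)) (hS : ∀ a, ∀ s ∈ S, (fun i => σ i a (s i)) ∈ S) :
    ∃ S' : Submodule L (∀ i, U i), (∀ a, ∀ s ∈ S', (fun i => σ i a (s i)) ∈ S') ∧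
      IsCompl S S' := by
  classical
  have := Fintype.ofFinite ι
  have htop : ∀ x : ∀ i, U i, x ∈ supp L U Finset.univ :=
    fun x i hi => absurd (Finset.mem_univ i) hi
  obtain ⟨S', h1, -, h2, h3⟩ := pi_compl_aux σ ss Finset.univ S hS fun x _ => htop x
  exact ⟨S', h1, h2, codisjoint_iff.2 (top_le_iff.1 fun x _ => h3 (htop x))⟩

end Pi

/-- Vectors `t k` which are eigenvectors of `G`, with the same eigenvalues for the elements of `J`,
have the same eigenvalues. -/
theorem common {L G K : Type} [Field L] [Group G] {M : K → Type} [∀ k, AddCommGroup (M k)]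
    [∀ k, Module L (M k)] (A : ∀ k, G →* End L (M k)) (t : ∀ k, M k) (J : Subgroup G)
    (h1 : ∀ k g, ∃ c : L, A k g (t k) = c • t k)
    (h2 : ∀ g ∈ J, ∃ c : L, ∀ k, A k g (t k) = c • t k)
    (h3 : ∀ g, ∃ m ∈ Subgroup.normalClosure (J : Set G), ∀ k, A k g = A k m) (g : G) :
    ∃ c : L, ∀ k, A k g (t k) = c • t k := by
  by_cases h0 : ∀ k, t k = 0
  · exact ⟨1, fun k => by rw [h0 k, map_zero, smul_zero]⟩
  push Not at h0
  obtain ⟨k₀, hk₀⟩ := h0
  have hinv : ∀ (k : K) (g : G) (x : M k), A k g⁻¹ (A k g x) = x := by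
    intro k g x
    rw [← Module.End.mul_apply, ← map_mul, inv_mul_cancel, map_one, Module.End.one_apply]
  let N : Subgroup G :=
    { carrier := {g | ∃ c : L, ∀ k, A k g (t k) = c • t k}
      mul_mem' := by
        rintro a b ⟨c, hc⟩ ⟨d, hd⟩
        refine ⟨d * c, fun k => ?_⟩
        rw [map_mul, Module.End.mul_apply, hd, map_smul, hc, smul_smul]
      one_mem' := ⟨1, fun k => by rw [map_one, Module.End.one_apply, one_smul]⟩
      inv_mem' := by
        rintro a ⟨c, hc⟩
        have hc0 : c ≠ 0 := by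
          rintro rfl
          have := hinv k₀ a (t k₀)
          rw [hc, zero_smul, map_zero] at this
          exact hk₀ this.symm
        refine ⟨c⁻¹, fun k => ?_⟩
        have := hinv k a (t k)
        rw [hc, map_smul] at this
        rw [← this, smul_smul, inv_mul_cancel₀ hc0, one_smul, this] }
  have hN : N.Normal := by
    refine ⟨?_⟩
    rintro n ⟨c, hc⟩ g
    refine ⟨c, fun k => ?_⟩
    by_cases hk : t k = 0
    · rw [hk, map_zero, smul_zero]
    obtain ⟨a, ha⟩ := h1 k g⁻¹
    obtain ⟨b, hb⟩ := h1 k g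
    have hab : a * b = 1 := by
      have h4 : A k g (A k g⁻¹ (t k)) = t k := by
        have := hinv k g⁻¹ (t k)
        rwa [inv_inv] at this
      rw [ha, map_smul, hb, smul_smul] at h4
      have h5 : (a * b - 1) • t k = 0 := by rw [sub_smul, h4, one_smul, sub_self]
      rcases smul_eq_zero.1 h5 with h | h
      · exact sub_eq_zero.1 h
      · exact absurd h hk
    rw [map_mul, map_mul, Module.End.mul_apply, Module.End.mul_apply, ha, map_smul, hc, map_smul,
      map_smul, hb, smul_smul, smul_smul]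
    congr 1
    calc a * c * b = c * (a * b) := by ring
      _ = c := by rw [hab, mul_one]
  have hle : Subgroup.normalClosure (J : Set G) ≤ N :=
    Subgroup.normalClosure_le_normal fun g hg => h2 g hg
  obtain ⟨m, hm, hm'⟩ := h3 g
  obtain ⟨c, hc⟩ := hle hm
  exact ⟨c, fun k => by rw [hm' k, hc]⟩

section

variable {L G W ι : Type} [Field L] [Group G] [AddCommGroup W] [Module L W]
  {U : ι → Type} [∀ i, AddCommGroup (U i)] [∀ i, Module L (U i)]

theorem lam_inv (lam : G →* L) (g : G) : lam g⁻¹ * lam g = 1 := by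
  rw [← map_mul, inv_mul_cancel, map_one]

theorem lam_ne (lam : G →* L) (g : G) : lam g ≠ 0 := by
  intro h
  have := lam_inv lam g
  rw [h, mul_zero] at this
  exact zero_ne_one this

/-- the twisted action -/
def twist {V : Type} [AddCommGroup V] [Module L V] (lam : G →* L) (σ : G →* End L V) :
    G →* End L V where
  toFun g := lam g⁻¹ • σ g
  map_one' := by rw [inv_one, map_one, map_one, one_smul]
  map_mul' g h := by
    rw [mul_inv_rev, map_mul, map_mul, smul_mul_smul_comm, mul_comm (lam g⁻¹)]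

theorem twist_apply {V : Type} [AddCommGroup V] [Module L V] (lam : G →* L) (σ : G →* End L V)
    (g : G) (x : V) : twist lam σ g x = lam g⁻¹ • σ g x := rfl

theorem twist_congr {V : Type} [AddCommGroup V] [Module L V] {lam : G →* L} {σ : G →* End L V}
    {g m : G} (h : σ g = σ m) (h' : lam g = lam m) : twist lam σ g = twist lam σ m := by
  have h1 : lam g⁻¹ = lam m⁻¹ := by
    have e1 := lam_inv lam g
    have e2 := lam_inv lam m
    rw [h'] at e1
    exact mul_right_cancel₀ (lam_ne lam m) (e1.trans e2.symm)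
  show lam g⁻¹ • σ g = lam m⁻¹ • σ m
  rw [h, h1]

theorem inv_congr {V : Type} [AddCommGroup V] [Module L V] {σ : G →* End L V} {g m : G}
    (h : σ g = σ m) : σ g⁻¹ = σ m⁻¹ := by
  have h1 : σ g⁻¹ * σ g = 1 := by rw [← map_mul, inv_mul_cancel, map_one]
  have h2 : σ m * σ m⁻¹ = 1 := by rw [← map_mul, mul_inv_cancel, map_one]
  calc σ g⁻¹ = σ g⁻¹ * (σ m * σ m⁻¹) := by rw [h2, mul_one]
    _ = (σ g⁻¹ * σ g) * σ m⁻¹ := by rw [h, mul_assoc]
    _ = σ m⁻¹ := by rw [h1, one_mul]

/-- the action on the homomorphisms -/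
def homAct {V V' : Type} [AddCommGroup V] [Module L V] [AddCommGroup V'] [Module L V']
    (σ : G →* End L V) (σ' : G →* End L V') : G →* End L (V →ₗ[L] V') where
  toFun g :=
    { toFun := fun T => σ' g ∘ₗ T ∘ₗ σ g⁻¹
      map_add' := fun T T' => by ext x; simp
      map_smul' := fun c T => by ext x; simp }
  map_one' := by
    ext T x
    simp
  map_mul' g h := by
    ext T x
    simp [mul_inv_rev]

theorem homAct_apply {V V' : Type} [AddCommGroup V] [Module L V] [AddCommGroup V'] [Module L V']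
    (σ : G →* End L V) (σ' : G →* End L V') (g : G) (T : V →ₗ[L] V') (x : V) :
    homAct σ σ' g T x = σ' g (T (σ g⁻¹ x)) := rfl

/-- the dual action -/
def dualAct {V : Type} [AddCommGroup V] [Module L V] (σ : G →* End L V) :
    G →* End L (Dual L V) where
  toFun g :=
    { toFun := fun f => f ∘ₗ σ g⁻¹
      map_add' := fun f f' => by ext x; simp
      map_smul' := fun c f => by ext x; simp }
  map_one' := by
    ext f x
    simp
  map_mul' g h := by
    ext f x
    simp [mul_inv_rev]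

theorem dualAct_apply {V : Type} [AddCommGroup V] [Module L V] (σ : G →* End L V) (g : G)
    (f : Dual L V) (x : V) : dualAct σ g f x = f (σ g⁻¹ x) := rfl

theorem apply_inv {V : Type} [AddCommGroup V] [Module L V] (σ : G →* End L V) (g : G) (x : V) :
    σ g (σ g⁻¹ x) = x := by
  rw [← Module.End.mul_apply, ← map_mul, mul_inv_cancel, map_one, Module.End.one_apply]

theorem inv_apply {V : Type} [AddCommGroup V] [Module L V] (σ : G →* End L V) (g : G) (x : V) :
    σ g⁻¹ (σ g x) = x := by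
  rw [← Module.End.mul_apply, ← map_mul, inv_mul_cancel, map_one, Module.End.one_apply]

variable (ρ : G →* End L W) (σ : ∀ i, G →* End L (U i)) (d : ∀ i, W →ₗ[L] U i)
  (lam : ι → G →* L)

/-- The hypotheses. -/
structure Hyp (J : Subgroup G) : Prop where
  hd : ∀ i g w, σ i g (d i w) = lam i g • d i (ρ g w)
  hinj : ∀ w, (∀ i, d i w = 0) → w = 0
  ss : ∀ i (S : Submodule L (U i)), (∀ g ∈ J, ∀ s ∈ S, σ i g s ∈ S) →
    ∃ S' : Submodule L (U i), (∀ g ∈ J, ∀ s ∈ S', σ i g s ∈ S') ∧ IsCompl S S'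
  semi : ∀ i j (T : U i →ₗ[L] U j), (∀ g ∈ J, ∃ c : L, ∀ x, σ j g (T x) = c • T (σ i g x)) →
    ∀ g, ∃ c : L, ∀ x, σ j g (T x) = c • T (σ i g x)
  form : ∀ i j (β : U i →ₗ[L] Dual L (U j)),
    (∀ g ∈ J, ∃ c : L, ∀ x y, β (σ i g x) (σ j g y) = c * β x y) →
    ∀ g, ∃ c : L, ∀ x y, β (σ i g x) (σ j g y) = c * β x y
  hJ : ∀ g, ∃ m ∈ Subgroup.normalClosure (J : Set G), ∀ i, σ i g = σ i m ∧ lam i g = lam i m

variable {ρ σ d lam} {J : Subgroup G}

theorem Hyp.tw (H : Hyp ρ σ d lam J) (i : ι) (g : G) (w : W) :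
    twist (lam i) (σ i) g (d i w) = d i (ρ g w) := by
  rw [twist_apply, H.hd, smul_smul, lam_inv, one_smul]

variable [Fintype ι]

/-- the stable complements -/
theorem Hyp.compl (H : Hyp ρ σ d lam J) (S : Submodule L (∀ i, U i))
    (hS : ∀ g ∈ J, ∀ s ∈ S, (fun i => twist (lam i) (σ i) g (s i)) ∈ S) :
    ∃ S' : Submodule L (∀ i, U i), (∀ g ∈ J, ∀ s ∈ S', (fun i => twist (lam i) (σ i) g (s i)) ∈ S')
      ∧ IsCompl S S' := by
  obtain ⟨S', h1, h2⟩ := pi_compl (A := J) (fun i g => twist (lam i) (σ i) (g : G)) (by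
    intro i S hS
    obtain ⟨S', h1, h2⟩ := H.ss i S (by
      intro g hg s hs
      have := S.smul_mem (lam i g) (hS ⟨g, hg⟩ s hs)
      rw [twist_apply, smul_smul, mul_comm, lam_inv, one_smul] at this
      exact this)
    exact ⟨S', fun g s hs => S'.smul_mem _ (h1 g g.2 s hs), h2⟩) S (fun g s hs => hS g g.2 s hs)
  exact ⟨S', fun g hg s hs => h1 ⟨g, hg⟩ s hs, h2⟩

/-- the equivariant retraction -/
theorem Hyp.exists_retraction (H : Hyp ρ σ d lam J) :
    ∃ r : (∀ i, U i) →ₗ[L] W, (∀ w, r (fun i => d i w) = w) ∧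
      ∀ g ∈ J, ∀ x, r (fun i => twist (lam i) (σ i) g (x i)) = ρ g (r x) := by
  let D : W →ₗ[L] (∀ i, U i) := LinearMap.pi d
  have hD : Function.Injective D := by
    rw [← LinearMap.ker_eq_bot, LinearMap.ker_eq_bot']
    intro w hw
    exact H.hinj w fun i => congrFun hw i
  have hDg : ∀ g w, (fun i => twist (lam i) (σ i) g (D w i)) = D (ρ g w) :=
    fun g w => funext fun i => H.tw i g w
  obtain ⟨C, hC, hc⟩ := H.compl (LinearMap.range D) (by
    rintro g - _ ⟨w, rfl⟩
    rw [hDg]
    exact ⟨_, rfl⟩)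
  let e := LinearEquiv.ofInjective D hD
  let r : (∀ i, U i) →ₗ[L] W := e.symm.toLinearMap ∘ₗ (Submodule.projectionOnto _ C hc)
  have hr1 : ∀ w, r (D w) = w := by
    intro w
    show e.symm (Submodule.projectionOnto _ C hc (D w)) = w
    have : (D w) = ((e w : LinearMap.range D) : ∀ i, U i) := rfl
    rw [this, Submodule.projectionOnto_apply_left, e.symm_apply_apply]
  have hr2 : ∀ x ∈ C, r x = 0 := by
    intro x hx
    show e.symm (Submodule.projectionOnto _ C hc x) = 0
    rw [Submodule.projectionOnto_apply_eq_zero_iff _ |>.2 hx, map_zero]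
  refine ⟨r, hr1, fun g hg x => ?_⟩
  have hx : x ∈ LinearMap.range D ⊔ C := by rw [hc.sup_eq_top]; trivial
  obtain ⟨_, ⟨w, rfl⟩, c, hcC, rfl⟩ := Submodule.mem_sup.1 hx
  have h1 : (fun i => twist (lam i) (σ i) g ((D w + c) i)) =
      D (ρ g w) + fun i => twist (lam i) (σ i) g (c i) := by
    rw [← hDg]
    ext i
    simp
  rw [h1, map_add, map_add, hr1, hr1, hr2 _ (hC g hg c hcC), hr2 c hcC, add_zero, add_zero]

theorem Hyp.transfer_semi (H : Hyp ρ σ d lam J) (T : End L W)
    (hT : ∀ g ∈ J, ∃ c : L, ∀ x, ρ g (T x) = c • T (ρ g x)) (g : G) :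
    ∃ c : L, ∀ x, ρ g (T x) = c • T (ρ g x) := by
  classical
  obtain ⟨r, hr, hrJ⟩ := H.exists_retraction
  have hr1 : ∀ i, ∀ g ∈ J, ∀ x : U i, r (Pi.single i (twist (lam i) (σ i) g x)) =
      ρ g (r (Pi.single i x)) := by
    intro i g hg x
    rw [← hrJ g hg]
    congr 1
    ext k
    by_cases hk : k = i
    · subst hk; simp
    · simp [Pi.single_eq_of_ne hk]
  -- the components
  let t : ∀ k : ι × ι, U k.1 →ₗ[L] U k.2 := fun k => d k.2 ∘ₗ T ∘ₗ r ∘ₗ LinearMap.single L U k.1
  have ht : ∀ k x, t k x = d k.2 (T (r (Pi.single k.1 x))) := fun k x => rfl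
  have hcomm : ∀ g ∈ J, ∃ c : L, ∀ k : ι × ι, ∀ x : U k.1,
      twist (lam k.2) (σ k.2) g (t k x) = c • t k (twist (lam k.1) (σ k.1) g x) := by
    intro g hg
    obtain ⟨c, hc⟩ := hT g hg
    refine ⟨c, fun k x => ?_⟩
    rw [ht, ht, H.tw, hc, map_smul, hr1 _ _ hg]
  obtain ⟨c, hc⟩ := common (M := fun k : ι × ι => U k.1 →ₗ[L] U k.2)
    (fun k => homAct (twist (lam k.1) (σ k.1)) (twist (lam k.2) (σ k.2))) t J (by
      intro k g
      obtain ⟨c, hc⟩ := H.semi k.1 k.2 (t k) (by
        intro g hg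
        obtain ⟨c, hc⟩ := hcomm g hg
        refine ⟨lam k.2 g * c * lam k.1 g⁻¹, fun x => ?_⟩
        have h1 := hc k x
        rw [twist_apply, twist_apply, map_smul] at h1
        have h2 := congrArg (fun y => lam k.2 g • y) h1
        simp only [smul_smul] at h2
        rw [mul_comm (lam k.2 g), lam_inv, one_smul] at h2
        rw [h2]
        ring_nf) g
      refine ⟨lam k.2 g⁻¹ * c * lam k.1 g, ?_⟩
      ext x
      rw [homAct_apply, twist_apply, twist_apply, LinearMap.smul_apply, inv_inv, map_smul,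
        map_smul, hc, apply_inv, smul_smul, smul_smul]
      ring_nf) (by
      intro g hg
      obtain ⟨c, hc⟩ := hcomm g hg
      refine ⟨c, fun k => ?_⟩
      ext x
      rw [homAct_apply, hc k, apply_inv, LinearMap.smul_apply]) (by
      intro g
      obtain ⟨m, hm, h⟩ := H.hJ g
      refine ⟨m, hm, fun k => ?_⟩
      have e1 : ∀ i, twist (lam i) (σ i) g = twist (lam i) (σ i) m :=
        fun i => twist_congr (h i).1 (h i).2
      have e2 : ∀ i, twist (lam i) (σ i) g⁻¹ = twist (lam i) (σ i) m⁻¹ :=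
        fun i => inv_congr (e1 i)
      ext T x
      rw [homAct_apply, homAct_apply, e1, e2]) g
  refine ⟨c, fun x => ?_⟩
  have hc' : ∀ (i j : ι) (y : U i), twist (lam j) (σ j) g (t (i, j) y) =
      c • t (i, j) (twist (lam i) (σ i) g y) := by
    intro i j y
    have := congrArg (fun F : U i →ₗ[L] U j => F (twist (lam i) (σ i) g y)) (hc (i, j))
    simp only [homAct_apply, inv_apply, LinearMap.smul_apply] at this
    exact this
  have hsum : ∀ (j : ι) (w : W), d j (T w) = ∑ i, t (i, j) (d i w) := by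
    intro j w
    have h1 : w = ∑ i, r (Pi.single i (d i w)) := by
      rw [← map_sum, Finset.univ_sum_single]
      exact (hr w).symm
    conv_lhs => rw [h1]
    rw [map_sum, map_sum]
    rfl
  have h1 : ∀ j, d j (ρ g (T x)) = d j (c • T (ρ g x)) := by
    intro j
    rw [← H.tw, hsum, map_sum, map_smul, hsum, Finset.smul_sum]
    refine Finset.sum_congr rfl fun i _ => ?_
    rw [hc', H.tw]
  have h2 := H.hinj (ρ g (T x) - c • T (ρ g x)) fun j => by rw [map_sub, h1, sub_self]
  exact sub_eq_zero.1 h2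

theorem Hyp.transfer_form (H : Hyp ρ σ d lam J) (β : W →ₗ[L] Dual L W)
    (hβ : ∀ g ∈ J, ∃ c : L, ∀ x y, β (ρ g x) (ρ g y) = c * β x y) (g : G) :
    ∃ c : L, ∀ x y, β (ρ g x) (ρ g y) = c * β x y := by
  classical
  obtain ⟨r, hr, hrJ⟩ := H.exists_retraction
  have hr1 : ∀ i, ∀ g ∈ J, ∀ x : U i, r (Pi.single i (twist (lam i) (σ i) g x)) =
      ρ g (r (Pi.single i x)) := by
    intro i g hg x
    rw [← hrJ g hg]
    congr 1
    ext k
    by_cases hk : k = i
    · subst hk; simp
    · simp [Pi.single_eq_of_ne hk]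
  let t : ∀ k : ι × ι, U k.1 →ₗ[L] Dual L (U k.2) := fun k =>
    (LinearMap.lcomp L L (r ∘ₗ LinearMap.single L U k.2)) ∘ₗ β ∘ₗ r ∘ₗ LinearMap.single L U k.1
  have ht : ∀ k x y, t k x y = β (r (Pi.single k.1 x)) (r (Pi.single k.2 y)) := fun k x y => rfl
  have hcomm : ∀ g ∈ J, ∃ c : L, ∀ k : ι × ι, ∀ (x : U k.1) (y : U k.2),
      t k (twist (lam k.1) (σ k.1) g x) (twist (lam k.2) (σ k.2) g y) = c * t k x y := by
    intro g hg
    obtain ⟨c, hc⟩ := hβ g hg
    refine ⟨c, fun k x y => ?_⟩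
    rw [ht, ht, hr1 _ _ hg, hr1 _ _ hg, hc]
  obtain ⟨c, hc⟩ := common (M := fun k : ι × ι => U k.1 →ₗ[L] Dual L (U k.2))
    (fun k => homAct (twist (lam k.1) (σ k.1)) (dualAct (twist (lam k.2) (σ k.2)))) t J (by
      intro k g
      obtain ⟨c, hc⟩ := H.form k.1 k.2 (t k) (by
        intro g hg
        obtain ⟨c, hc⟩ := hcomm g hg
        refine ⟨lam k.2 g * c * lam k.1 g, fun x y => ?_⟩
        have h1 := hc k x y
        rw [twist_apply, twist_apply, map_smul, map_smul, LinearMap.smul_apply, smul_eq_mul,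
          smul_eq_mul] at h1
        have e1 := lam_inv (lam k.1) g
        have e2 := lam_inv (lam k.2) g
        calc t k (σ k.1 g x) (σ k.2 g y)
            = (lam k.1 g⁻¹ * lam k.1 g) * (lam k.2 g⁻¹ * lam k.2 g) *
              t k (σ k.1 g x) (σ k.2 g y) := by rw [e1, e2]; ring
          _ = lam k.2 g * lam k.1 g *
              (lam k.2 g⁻¹ * (lam k.1 g⁻¹ * t k (σ k.1 g x) (σ k.2 g y))) := by ring
          _ = lam k.2 g * c * lam k.1 g * t k x y := by rw [h1]; ring) g⁻¹
      refine ⟨lam k.1 g * (lam k.2 g * c), ?_⟩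
      ext x y
      rw [homAct_apply, dualAct_apply, twist_apply, twist_apply, LinearMap.smul_apply,
        LinearMap.smul_apply, inv_inv, map_smul, map_smul, LinearMap.smul_apply, hc, smul_eq_mul,
        smul_eq_mul, smul_eq_mul]
      ring) (by
      intro g hg
      obtain ⟨c, hc⟩ := hcomm g⁻¹ (J.inv_mem hg)
      refine ⟨c, fun k => ?_⟩
      ext x y
      rw [homAct_apply, dualAct_apply, hc k, LinearMap.smul_apply, LinearMap.smul_apply,
        smul_eq_mul]) (by
      intro g
      obtain ⟨m, hm, h⟩ := H.hJ g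
      refine ⟨m, hm, fun k => ?_⟩
      have e1 : ∀ i, twist (lam i) (σ i) g = twist (lam i) (σ i) m :=
        fun i => twist_congr (h i).1 (h i).2
      have e2 : ∀ i, twist (lam i) (σ i) g⁻¹ = twist (lam i) (σ i) m⁻¹ :=
        fun i => inv_congr (e1 i)
      ext T x y
      rw [homAct_apply, homAct_apply, dualAct_apply, dualAct_apply, e2, e2]) g⁻¹
  refine ⟨c, fun x y => ?_⟩
  have hc' : ∀ (i j : ι) (u : U i) (v : U j),
      t (i, j) (twist (lam i) (σ i) g u) (twist (lam j) (σ j) g v) = c * t (i, j) u v := by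
    intro i j u v
    have := congrArg (fun F : U i →ₗ[L] Dual L (U j) => F u v) (hc (i, j))
    simp only [homAct_apply, dualAct_apply, inv_inv, LinearMap.smul_apply, smul_eq_mul] at this
    exact this
  have h1 : ∀ w : W, w = ∑ i, r (Pi.single i (d i w)) := by
    intro w
    rw [← map_sum, Finset.univ_sum_single]
    exact (hr w).symm
  have hsum : ∀ v w : W, β v w = ∑ i, ∑ j, t (i, j) (d i v) (d j w) := by
    intro v w
    conv_lhs => rw [h1 v, h1 w]
    rw [map_sum β, LinearMap.sum_apply]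
    refine Finset.sum_congr rfl fun i _ => ?_
    rw [map_sum]
    rfl
  rw [hsum, hsum, Finset.mul_sum]
  refine Finset.sum_congr rfl fun i _ => ?_
  rw [Finset.mul_sum]
  refine Finset.sum_congr rfl fun j _ => ?_
  rw [← H.tw, ← H.tw, hc']

theorem Hyp.transfer_sub (H : Hyp ρ σ d lam J) (S : Submodule L W)
    (hS : ∀ g ∈ J, ∀ s ∈ S, ρ g s ∈ S) :
    (∀ g, ∀ s ∈ S, ρ g s ∈ S) ∧
      ∃ S' : Submodule L W, (∀ g ∈ J, ∀ s ∈ S', ρ g s ∈ S') ∧ IsCompl S S' := by
  let D : W →ₗ[L] (∀ i, U i) := LinearMap.pi d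
  have hD : Function.Injective D := by
    rw [← LinearMap.ker_eq_bot, LinearMap.ker_eq_bot']
    intro w hw
    exact H.hinj w fun i => congrFun hw i
  have hDg : ∀ g w, (fun i => twist (lam i) (σ i) g (D w i)) = D (ρ g w) :=
    fun g w => funext fun i => H.tw i g w
  obtain ⟨C, hC, hc⟩ := H.compl (S.map D) (by
    rintro g hg _ ⟨w, hw, rfl⟩
    rw [hDg]
    exact ⟨_, hS g hg w hw, rfl⟩)
  have hst : ∀ g ∈ J, ∀ s ∈ C.comap D, ρ g s ∈ C.comap D := by
    intro g hg s hs
    rw [Submodule.mem_comap, ← hDg]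
    exact hC g hg _ hs
  have hcompl : IsCompl S (C.comap D) := by
    refine IsCompl.of_eq ?_ ?_
    · rw [eq_bot_iff]
      rintro x ⟨h1, h2⟩
      have := (Submodule.disjoint_def.1 hc.disjoint) (D x) ⟨x, h1, rfl⟩ h2
      exact hD (this.trans (map_zero D).symm)
    · rw [eq_top_iff]
      rintro x -
      have hx : D x ∈ S.map D ⊔ C := by rw [hc.sup_eq_top]; trivial
      obtain ⟨_, ⟨s, hs, rfl⟩, c, hcC, h⟩ := Submodule.mem_sup.1 hx
      refine Submodule.mem_sup.2 ⟨s, hs, x - s, ?_, by abel⟩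
      rw [Submodule.mem_comap, map_sub, ← h, add_sub_cancel_left]
      exact hcC
  refine ⟨?_, C.comap D, hst, hcompl⟩
  -- the projection onto `S` is semi-invariant
  let p := Submodule.projectionOnto S _ hcompl
  let e : End L W := S.subtype ∘ₗ p
  have he1 : ∀ s ∈ S, e s = s := by
    intro s hs
    show ((p s : S) : W) = s
    exact congrArg Subtype.val (Submodule.projectionOnto_apply_left hcompl ⟨s, hs⟩)
  have he2 : ∀ s ∈ C.comap D, e s = 0 := by
    intro s hs
    show ((p s : S) : W) = 0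
    rw [(Submodule.projectionOnto_apply_eq_zero_iff hcompl).2 hs]
    rfl
  have he3 : ∀ x, e x ∈ S := fun x => (p x).2
  have heJ : ∀ g ∈ J, ∀ x, ρ g (e x) = e (ρ g x) := by
    intro g hg x
    have hx : x ∈ S ⊔ C.comap D := by rw [hcompl.sup_eq_top]; trivial
    obtain ⟨s, hs, c, hcC, rfl⟩ := Submodule.mem_sup.1 hx
    rw [map_add, map_add, map_add, map_add, he1 s hs, he2 c hcC, he1 _ (hS g hg s hs),
      he2 _ (hst g hg c hcC), map_zero]
  intro g s hs
  obtain ⟨c, hc⟩ := H.transfer_semi e (fun g hg => ⟨1, fun x => by rw [one_smul, heJ g hg]⟩) g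
  have := hc s
  rw [he1 s hs] at this
  rw [this]
  exact S.smul_mem _ (he3 _)

end

end Pool.Agent.Helper70.MTG
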