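import Mathlib

/-!
# Goursat's lemma for the Lie algebra of a family of blocks

`h` is a space of families of endomorphisms of the finite dimensional spaces `B i`, closed under
commutators. Any two blocks of dimension at least two are either separated by `h`, or linked by an
isomorphism `B i ≃ B k` or `Dual (B i) ≃ B k`. Then `h` contains every family which is traceless on
every block and compatible with the links.
-/

set_option autoImplicit false

namespace Pool.Agent.Helper70.MTG

open Module

/-- Every traceless matrix is a sum of commutators of traceless matrices. -/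
theorem matrix_mem {L n : Type} [Field L] [CharZero L] [Fintype n] [DecidableEq n]
    (S : Submodule L (Matrix n n L))
    (hS : ∀ Y Z : Matrix n n L, Y.trace = 0 → Z.trace = 0 → Y * Z - Z * Y ∈ S)
    (X : Matrix n n L) (hX : X.trace = 0) : X ∈ S := by
  -- off-diagonal units
  have h1 : ∀ i j : n, i ≠ j → ∀ c : L, Matrix.single i j c ∈ S := by
    intro i j hij c
    have h2 := hS (Matrix.single i i (1 : L) - Matrix.single j j 1) (Matrix.single i j (c / 2))
      (by simp) (by simp [Matrix.trace_single_eq_of_ne _ _ _ hij])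
    have h3 : (Matrix.single i i (1 : L) - Matrix.single j j 1) * Matrix.single i j (c / 2) -
        Matrix.single i j (c / 2) * (Matrix.single i i (1 : L) - Matrix.single j j 1) =
        Matrix.single i j c := by
      rw [sub_mul, mul_sub, Matrix.single_mul_single_same,
        Matrix.single_mul_single_of_ne _ _ _ _ (Ne.symm hij),
        Matrix.single_mul_single_of_ne _ _ _ _ (Ne.symm hij), Matrix.single_mul_single_same]
      rw [one_mul, mul_one, sub_zero, zero_sub, sub_neg_eq_add, ← Matrix.single_add]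
      congr 1
      ring
    rwa [h3] at h2
  -- differences of diagonal units
  have h4 : ∀ i j : n, ∀ c : L, Matrix.single i i c - Matrix.single j j c ∈ S := by
    intro i j c
    rcases eq_or_ne i j with rfl | hij
    · rw [sub_self]; exact S.zero_mem
    have h2 := hS (Matrix.single i j c) (Matrix.single j i 1)
      (by simp [Matrix.trace_single_eq_of_ne _ _ _ hij])
      (by simp [Matrix.trace_single_eq_of_ne _ _ _ (Ne.symm hij)])
    rw [Matrix.single_mul_single_same, Matrix.single_mul_single_same, mul_one, one_mul] at h2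
    exact h2
  have h5 : X = ∑ i, ∑ j, Matrix.single i j (X i j) := Matrix.matrix_eq_sum_single X
  rcases isEmpty_or_nonempty n with hn | ⟨⟨i₀⟩⟩
  · rw [h5]; simp
  have h6 : X = ∑ i, ∑ j, (Matrix.single i j (X i j) -
      if i = j then Matrix.single i₀ i₀ (X i j) else 0) := by
    simp only [Finset.sum_sub_distrib]
    rw [← h5]
    have h7 : ∑ i, ∑ j, (if i = j then Matrix.single i₀ i₀ (X i j) else 0) =
        (0 : Matrix n n L) := by
      simp only [Finset.sum_ite_eq, Finset.mem_univ, if_true]
      have h8 : ∑ i, Matrix.single i₀ i₀ (X i i) = Matrix.single i₀ i₀ (∑ i, X i i) := by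
        rw [← Matrix.singleAddMonoidHom_apply, map_sum]
        rfl
      rw [h8]
      have h9 : ∑ i, X i i = 0 := hX
      rw [h9, Matrix.single_zero]
    rw [h7, sub_zero]
  rw [h6]
  refine S.sum_mem fun i _ => S.sum_mem fun j _ => ?_
  rcases eq_or_ne i j with rfl | hij
  · rw [if_pos rfl]; exact h4 _ _ _
  · rw [if_neg hij, sub_zero]; exact h1 _ _ hij _

/-- Every traceless endomorphism is a sum of commutators of traceless endomorphisms. -/
theorem end_mem {L V : Type} [Field L] [CharZero L] [AddCommGroup V] [Module L V]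
    [FiniteDimensional L V] (S : Submodule L (End L V))
    (hS : ∀ Y Z : End L V, LinearMap.trace L V Y = 0 → LinearMap.trace L V Z = 0 →
      Y * Z - Z * Y ∈ S)
    (X : End L V) (hX : LinearMap.trace L V X = 0) : X ∈ S := by
  classical
  let b := Module.finBasis L V
  let e := LinearMap.toMatrixAlgEquiv b
  have htr : ∀ Y : End L V, (e Y).trace = LinearMap.trace L V Y := by
    intro Y
    exact (LinearMap.trace_eq_matrix_trace L b Y).symm
  have h := matrix_mem (S.comap e.symm.toLinearMap) (by
    intro Y Z hY hZ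
    rw [Submodule.mem_comap]
    have := hS (e.symm Y) (e.symm Z) (by rw [← htr, e.apply_symm_apply, hY])
      (by rw [← htr, e.apply_symm_apply, hZ])
    simpa using this) (e X) (by rw [htr, hX])
  rw [Submodule.mem_comap] at h
  simpa using h

variable {L : Type} [Field L] {ι : Type} {B : ι → Type} [∀ i, AddCommGroup (B i)]
  [∀ i, Module L (B i)]

/-- `h` is closed under commutators. -/
def Closed (h : Submodule L (∀ i, End L (B i))) : Prop :=
  ∀ a ∈ h, ∀ b ∈ h, a * b - b * a ∈ h

/-- `h` separates the blocks `i` and `k`. -/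
def Sep (h : Submodule L (∀ i, End L (B i))) (i k : ι) : Prop :=
  ∀ X : End L (B i), LinearMap.trace L (B i) X = 0 → ∃ a ∈ h, a i = X ∧ a k = 0

/-- `T` links the blocks `i` and `k`: the elements of `h` commute with `T` up to scalars. -/
def Link (h : Submodule L (∀ i, End L (B i))) (i k : ι) (T : B i ≃ₗ[L] B k) : Prop :=
  ∀ a ∈ h, ∃ c : L, a k ∘ₗ T.toLinearMap - T.toLinearMap ∘ₗ a i = c • T.toLinearMap

/-- `T` links the blocks `i` and `k`: the elements of `h` commute with `T` up to scalars. -/
def LinkD (h : Submodule L (∀ i, End L (B i))) (i k : ι) (T : Dual L (B i) ≃ₗ[L] B k) : Prop :=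
  ∀ a ∈ h, ∃ c : L,
    a k ∘ₗ T.toLinearMap + T.toLinearMap ∘ₗ (Dual.transpose (R := L) (a i)) = c • T.toLinearMap

theorem smul_zero_of_trace {V W : Type} [AddCommGroup V] [Module L V] [AddCommGroup W]
    [Module L W] [FiniteDimensional L V] [CharZero L] (T : V ≃ₗ[L] W) (A : End L W)
    (A' : End L V) (c : L) (hA : LinearMap.trace L W A = 0) (hA' : LinearMap.trace L V A' = 0)
    (h : A ∘ₗ T.toLinearMap - T.toLinearMap ∘ₗ A' = c • T.toLinearMap) :
    A ∘ₗ T.toLinearMap = T.toLinearMap ∘ₗ A' := by
  rcases subsingleton_or_nontrivial V with hV | hV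
  · ext v
    have : v = 0 := Subsingleton.elim _ _
    simp [this]
  have h1 : T.symm.toLinearMap ∘ₗ A ∘ₗ T.toLinearMap - A' = c • LinearMap.id := by
    ext v
    have := congrArg (fun F : V →ₗ[L] W => T.symm (F v)) h
    simpa using this
  have h2 := congrArg (LinearMap.trace L V) h1
  have h3 : LinearMap.trace L V (T.symm.toLinearMap ∘ₗ A ∘ₗ T.toLinearMap) = 0 := by
    rw [← hA]
    have := LinearMap.trace_conj' A T.symm
    rw [← this]
    rfl
  rw [map_sub, h3, hA', sub_zero, map_smul, LinearMap.trace_id, smul_eq_mul] at h2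
  have h4 : (Module.finrank L V : L) ≠ 0 := by
    rw [Nat.cast_ne_zero]
    exact Module.finrank_pos.ne'
  have h5 : c = 0 := by
    rcases mul_eq_zero.1 h2.symm with h | h
    · exact h
    · exact absurd h h4
  rw [h5, zero_smul] at h
  exact sub_eq_zero.1 h

/-- the elements of `h` which are traceless on every block commute with the links -/
theorem Link.comm [CharZero L] [∀ i, FiniteDimensional L (B i)]
    {h : Submodule L (∀ i, End L (B i))} {i k : ι} {T : B i ≃ₗ[L] B k} (hT : Link h i k T)
    {a : ∀ i, End L (B i)} (ha : a ∈ h) (ht : ∀ i, LinearMap.trace L (B i) (a i) = 0) :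
    a k ∘ₗ T.toLinearMap = T.toLinearMap ∘ₗ a i := by
  obtain ⟨c, hc⟩ := hT a ha
  exact smul_zero_of_trace T _ _ c (ht k) (ht i) hc

theorem LinkD.comm [CharZero L] [∀ i, FiniteDimensional L (B i)]
    {h : Submodule L (∀ i, End L (B i))} {i k : ι} {T : Dual L (B i) ≃ₗ[L] B k}
    (hT : LinkD h i k T) {a : ∀ i, End L (B i)} (ha : a ∈ h)
    (ht : ∀ i, LinearMap.trace L (B i) (a i) = 0) :
    a k ∘ₗ T.toLinearMap + T.toLinearMap ∘ₗ (Dual.transpose (R := L) (a i)) = 0 := by
  obtain ⟨c, hc⟩ := hT a ha
  have h0 : LinearMap.trace L (Dual L (B i)) (-(Dual.transpose (R := L) (a i))) = 0 := by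
    have h1 := LinearMap.trace_transpose' (R := L) (a i)
    rw [ht i] at h1
    have h2 : (-(Dual.transpose (R := L) (a i)) : Dual L (B i) →ₗ[L] Dual L (B i)) =
        (-1 : L) • (Dual.transpose (R := L) (a i)) := by
      ext v w; simp
    rw [h2, map_smul]
    exact (congrArg _ h1).trans (smul_zero _)
  have h1 := smul_zero_of_trace T (a k) (-(Dual.transpose (R := L) (a i))) c (ht k) h0 (by
    rw [← hc]
    ext v
    simp)
  rw [h1]
  ext v
  simp

/-- A block which can be killed. -/
def Kill (h : Submodule L (∀ i, End L (B i))) (i k : ι) : Prop :=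
  Sep h i k ∨ Module.finrank L (B k) ≤ 1

theorem comm_of_small {V : Type} [AddCommGroup V] [Module L V] [FiniteDimensional L V]
    (hV : Module.finrank L V ≤ 1) (a b : End L V) : a * b - b * a = 0 := by
  obtain ⟨v, hv⟩ := finrank_le_one_iff.1 hV
  ext w
  obtain ⟨c, rfl⟩ := hv w
  obtain ⟨x, hx⟩ := hv (a v)
  obtain ⟨y, hy⟩ := hv (b v)
  simp only [LinearMap.sub_apply, Module.End.mul_apply, map_smul, LinearMap.zero_apply]
  rw [← hx, ← hy, map_smul, map_smul, ← hx, ← hy]
  rw [smul_comm x y, sub_self]

/-- the component `i` is prescribed, and the killable blocks in `F` are killed -/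
theorem exists_kill [CharZero L] [∀ i, FiniteDimensional L (B i)]
    (h : Submodule L (∀ i, End L (B i))) (hc : Closed h) (i : ι)
    (full : ∀ Y : End L (B i), ∃ a ∈ h, ∃ c : L, a i = Y + c • (1 : End L (B i)))
    (F : Finset ι) (hF : ∀ k ∈ F, Kill h i k) (X : End L (B i))
    (hX : LinearMap.trace L (B i) X = 0) :
    ∃ a ∈ h, a i = X ∧ (∀ k, LinearMap.trace L (B k) (a k) = 0) ∧ ∀ k ∈ F, a k = 0 := by
  classical
  induction F using Finset.induction_on generalizing X with
  | empty =>
    let S : Submodule L (End L (B i)) :=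
      { carrier := {X | ∃ a ∈ h, a i = X ∧ (∀ k, LinearMap.trace L (B k) (a k) = 0) ∧
          ∀ k ∈ (∅ : Finset ι), a k = 0}
        add_mem' := by
          rintro X Y ⟨a, ha, h1, h2, h3⟩ ⟨b, hb, h4, h5, h6⟩
          refine ⟨a + b, h.add_mem ha hb, by rw [Pi.add_apply, h1, h4], fun k => ?_,
            fun k hk => ?_⟩
          · rw [Pi.add_apply, map_add, h2, h5, add_zero]
          · rw [Pi.add_apply, h3 k hk, h6 k hk, add_zero]
        zero_mem' := ⟨0, h.zero_mem, rfl, fun k => by rw [Pi.zero_apply, map_zero],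
          fun k _ => rfl⟩
        smul_mem' := by
          rintro c X ⟨a, ha, h1, h2, h3⟩
          refine ⟨c • a, h.smul_mem c ha, by rw [Pi.smul_apply, h1], fun k => ?_, fun k hk => ?_⟩
          · rw [Pi.smul_apply, map_smul, h2, smul_zero]
          · rw [Pi.smul_apply, h3 k hk, smul_zero] }
    refine end_mem S ?_ X hX
    intro Y Z _ _
    obtain ⟨a, ha, c, h1⟩ := full Y
    obtain ⟨b, hb, d, h2⟩ := full Z
    refine ⟨a * b - b * a, hc a ha b hb, ?_, fun k => ?_, fun k hk => absurd hk (by simp)⟩
    · rw [Pi.sub_apply, Pi.mul_apply, Pi.mul_apply, h1, h2]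
      simp only [add_mul, mul_add, smul_mul_assoc, mul_smul_comm, one_mul, mul_one]
      rw [smul_add, smul_add, smul_smul, smul_smul, mul_comm c d]
      abel
    · rw [Pi.sub_apply, Pi.mul_apply, Pi.mul_apply, map_sub, LinearMap.trace_mul_comm, sub_self]
  | insert k F hk ih =>
    have ih' := ih (fun k' hk' => hF k' (Finset.mem_insert_of_mem hk'))
    let S : Submodule L (End L (B i)) :=
      { carrier := {X | ∃ a ∈ h, a i = X ∧ (∀ k, LinearMap.trace L (B k) (a k) = 0) ∧
          ∀ k' ∈ insert k F, a k' = 0}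
        add_mem' := by
          rintro X Y ⟨a, ha, h1, h2, h3⟩ ⟨b, hb, h4, h5, h6⟩
          refine ⟨a + b, h.add_mem ha hb, by rw [Pi.add_apply, h1, h4], fun k => ?_,
            fun k hk => ?_⟩
          · rw [Pi.add_apply, map_add, h2, h5, add_zero]
          · rw [Pi.add_apply, h3 k hk, h6 k hk, add_zero]
        zero_mem' := ⟨0, h.zero_mem, rfl, fun k => by rw [Pi.zero_apply, map_zero],
          fun k _ => rfl⟩
        smul_mem' := by
          rintro c X ⟨a, ha, h1, h2, h3⟩
          refine ⟨c • a, h.smul_mem c ha, by rw [Pi.smul_apply, h1], fun k => ?_, fun k hk => ?_⟩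
          · rw [Pi.smul_apply, map_smul, h2, smul_zero]
          · rw [Pi.smul_apply, h3 k hk, smul_zero] }
    refine end_mem S ?_ X hX
    intro Y Z hY hZ
    obtain ⟨a, ha, h1, h2, h3⟩ := ih' Y hY
    have hb : ∃ b ∈ h, b i = Z ∧ (b k = 0 ∨ Module.finrank L (B k) ≤ 1) := by
      rcases hF k (Finset.mem_insert_self _ _) with h4 | h4
      · obtain ⟨b, hb, h5, h6⟩ := h4 Z hZ
        exact ⟨b, hb, h5, Or.inl h6⟩
      · obtain ⟨b, hb, h5, -⟩ := ih' Z hZ
        exact ⟨b, hb, h5, Or.inr h4⟩
    obtain ⟨b, hb, h5, h6⟩ := hb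
    refine ⟨a * b - b * a, hc a ha b hb, ?_, fun k' => ?_, fun k' hk' => ?_⟩
    · rw [Pi.sub_apply, Pi.mul_apply, Pi.mul_apply, h1, h5]
    · rw [Pi.sub_apply, Pi.mul_apply, Pi.mul_apply, map_sub, LinearMap.trace_mul_comm, sub_self]
    · rw [Pi.sub_apply, Pi.mul_apply, Pi.mul_apply]
      rcases Finset.mem_insert.1 hk' with rfl | h7
      · rcases h6 with h6 | h6
        · rw [h6, mul_zero, zero_mul, sub_self]
        · exact comm_of_small h6 _ _
      · rw [h3 k' h7, mul_zero, zero_mul, sub_self]

theorem eq_zero_of_small [CharZero L] {V : Type} [AddCommGroup V] [Module L V]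
    [FiniteDimensional L V] (hV : Module.finrank L V ≤ 1) (a : End L V)
    (ha : LinearMap.trace L V a = 0) : a = 0 := by
  obtain ⟨v, hv⟩ := finrank_le_one_iff.1 hV
  obtain ⟨x, hx⟩ := hv (a v)
  have h1 : a = x • LinearMap.id := by
    ext w
    obtain ⟨c, rfl⟩ := hv w
    rw [map_smul, ← hx, LinearMap.smul_apply, LinearMap.id_apply, smul_comm]
  rw [h1, map_smul, LinearMap.trace_id, smul_eq_mul] at ha
  rcases mul_eq_zero.1 ha with h2 | h2
  · rw [h1, h2, zero_smul]
  · have h3 : Module.finrank L V = 0 := by exact_mod_cast h2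
    have h4 : Subsingleton V := Module.finrank_zero_iff.1 h3
    ext w
    exact Subsingleton.elim _ _

/-- **Goursat.** -/
theorem goursat [CharZero L] [Finite ι] [∀ i, FiniteDimensional L (B i)]
    (h : Submodule L (∀ i, End L (B i))) (hc : Closed h)
    (full : ∀ i, 2 ≤ Module.finrank L (B i) → ∀ Y : End L (B i),
      ∃ a ∈ h, ∃ c : L, a i = Y + c • (1 : End L (B i)))
    (X : ∀ i, End L (B i)) (tr : ∀ i, LinearMap.trace L (B i) (X i) = 0)
    (hP : ∀ i k, i ≠ k → 2 ≤ Module.finrank L (B i) → 2 ≤ Module.finrank L (B k) →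
      Sep h i k ∨
      (∃ T : B i ≃ₗ[L] B k, Link h i k T ∧ X k ∘ₗ T.toLinearMap = T.toLinearMap ∘ₗ X i) ∨
      ∃ T : Dual L (B i) ≃ₗ[L] B k, LinkD h i k T ∧
        X k ∘ₗ T.toLinearMap + T.toLinearMap ∘ₗ (Dual.transpose (R := L) (X i)) = 0) :
    X ∈ h := by
  classical
  have := Fintype.ofFinite ι
  -- induction on the support
  obtain ⟨n, hn⟩ : ∃ n, (Finset.univ.filter fun i => X i ≠ 0).card = n := ⟨_, rfl⟩
  induction n using Nat.strong_induction_on generalizing X with
  | _ n ih =>
    by_cases h0 : ∀ i, X i = 0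
    · have : X = 0 := funext h0
      rw [this]; exact h.zero_mem
    push Not at h0
    obtain ⟨i, hi⟩ := h0
    have hdim : ∀ k, X k ≠ 0 → 2 ≤ Module.finrank L (B k) := by
      intro k hk
      by_contra hlt
      exact hk (eq_zero_of_small (by omega) _ (tr k))
    have hi2 := hdim i hi
    obtain ⟨a, ha, h1, h2, h3⟩ := exists_kill h hc i (full i hi2)
      (Finset.univ.filter fun k => Kill h i k) (fun k hk => (Finset.mem_filter.1 hk).2) (X i)
      (tr i)
    -- `a` and `X` agree on the blocks which are not killed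
    have h4 : ∀ k, a k ≠ 0 → a k = X k := by
      intro k hk
      by_cases hki : k = i
      · rw [hki, h1]
      have hk1 : ¬ Kill h i k := fun hk' => hk (h3 k (Finset.mem_filter.2 ⟨Finset.mem_univ _, hk'⟩))
      have hk2 : ¬ Sep h i k := fun hs => hk1 (Or.inl hs)
      have hk3 : 2 ≤ Module.finrank L (B k) := by
        by_contra hlt
        exact hk1 (Or.inr (by omega))
      rcases hP i k (Ne.symm hki) hi2 hk3 with h5 | ⟨T, hT, h5⟩ | ⟨T, hT, h5⟩
      · exact absurd h5 hk2
      · have h6 := hT.comm ha h2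
        rw [h1, ← h5] at h6
        ext w
        have := congrArg (fun F : B i →ₗ[L] B k => F (T.symm w)) h6
        simpa using this
      · have h6 := hT.comm ha h2
        rw [h1, ← h5] at h6
        have h7 := add_right_cancel h6
        ext w
        have := congrArg (fun F : Dual L (B i) →ₗ[L] B k => F (T.symm w)) h7
        simpa using this
    have h5 : X - a ∈ h := by
      refine ih (Finset.univ.filter fun k => (X - a) k ≠ 0).card ?_ (X - a) ?_ ?_ rfl
      · rw [← hn]
        refine Finset.card_lt_card ⟨?_, ?_⟩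
        · intro k hk
          rw [Finset.mem_filter] at hk ⊢
          refine ⟨hk.1, fun hX => hk.2 ?_⟩
          by_cases hak : a k = 0
          · rw [Pi.sub_apply, hX, hak, sub_zero]
          · exact absurd (hX ▸ h4 k hak) hak
        · intro hss
          have := hss (Finset.mem_filter.2 ⟨Finset.mem_univ i, hi⟩)
          rw [Finset.mem_filter] at this
          exact this.2 (by rw [Pi.sub_apply, h1, sub_self])
      · intro k
        rw [Pi.sub_apply, map_sub, tr k, h2 k, sub_zero]
      · intro j k hjk hj hk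
        rcases hP j k hjk hj hk with h6 | ⟨T, hT, h6⟩ | ⟨T, hT, h6⟩
        · exact Or.inl h6
        · refine Or.inr (Or.inl ⟨T, hT, ?_⟩)
          rw [Pi.sub_apply, Pi.sub_apply, LinearMap.sub_comp, LinearMap.comp_sub, h6,
            hT.comm ha h2]
        · refine Or.inr (Or.inr ⟨T, hT, ?_⟩)
          have h7 := hT.comm ha h2
          rw [Pi.sub_apply, Pi.sub_apply, LinearMap.sub_comp, map_sub, LinearMap.comp_sub]
          rw [sub_add_sub_comm, h6, h7, sub_zero]
    have := h.add_mem h5 ha
    rwa [sub_add_cancel] at this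

end Pool.Agent.Helper70.MTG
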